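import Pool.Agent.H343.QF.StL

set_option autoImplicit false
set_option linter.unusedSectionVars false

/-! # MP_9a852a_al, task L8: the axioms are expressible -/

namespace Pool.Agent.H636.QF

open Pool.Agent.H343.QF Pool.Agent.H.MP_c33acd_lc FirstOrder FirstOrder.Language

section gen

variable {X : LS} {C : Cn} {α β : Type} {x1 x2 x3 x4 : Tm α β}

lemma MT_npow (h1 : MT X C α β x1) (k : ℕ) :
    MT X C α β fun K _ a r v n => x1 K a r v n ^ k := by
  induction k with
  | zero => simpa only [pow_zero] using MT.one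
  | succ k ih => simpa only [pow_succ] using ih.mul h1

lemma MT_blk (h1 : MT X C α β x1) (h2 : MT X C α β x2) (k : ℕ) :
    MT X C α β fun K _ a r v n => blk (x1 K a r v n) (x2 K a r v n) k := by
  induction k with
  | zero => simpa only [blk] using MT.one
  | succ k ih => simpa only [blk] using ih.mul ((MT_npow h2 (k + 1)).mul h1)

lemma MT_ltr (h1 : MT X C α β x1) (h2 : MT X C α β x2) (k : ℕ) :
    MT X C α β fun K _ a r v n => ltr (x1 K a r v n) (x2 K a r v n) k := by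
  unfold ltr
  split_ifs
  · exact h1
  · exact h1.inv
  · exact h2
  · exact h2.inv

lemma D_CmR (h1 : MT X C α β x1) : MD X C α β fun K _ a r v n => CmR r (x1 K a r v n) :=
  MD.eq (h1.mul MT.r) (MT.r.mul h1)

lemma D_Sd (B : ℕ) (h1 : MT X C α β x1) (h2 : MT X C α β x2) (h3 : MT X C α β x3) :
    MT X C α β fun K _ a r v n => Sd B a (x1 K a r v n) (x2 K a r v n) (x3 K a r v n) :=
  (((h1.mul (MT_npow MT.a 3)).mul h2).mul (MT_npow MT.a 3)).mul (MT_blk (MT_npow MT.a 2) h3 B)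

lemma D_SqR (B : ℕ) (h1 : MT X C α β x1) (h2 : MT X C α β x2) :
    MD X C α β fun K _ a r v n => SqR B a r (x1 K a r v n) (x2 K a r v n) :=
  (D_CmR h1).and ((D_CmR h2).and (MD.ex ((D_CmR (MT.var none)).and
    (MD.eq (D_Sd B (h1.rel some id) (h2.rel some id) (MT.var none)) MT.one))))

lemma D_NmR (B : ℕ) (h1 : MT X C α β x1) :
    MD X C α β fun K _ a r v n => NmR B a r (x1 K a r v n) :=
  MD.ex (D_SqR B (h1.rel some id) (MT.var none))

lemma D_MuR (B : ℕ) (h1 : MT X C α β x1) (h2 : MT X C α β x2) (h3 : MT X C α β x3) :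
    MD X C α β fun K _ a r v n => MuR B a r (x1 K a r v n) (x2 K a r v n) (x3 K a r v n) :=
  MD.ex (MD.ex (MD.ex ((D_SqR B ((h1.mul h2).rel (fun i => some (some (some i))) id)
    (MT.var (some (some none)))).and ((D_SqR B (h1.rel (fun i => some (some (some i))) id)
    (MT.var (some none))).and ((D_SqR B (h2.rel (fun i => some (some (some i))) id)
    (MT.var none)).and (MD.eq (MT.var (some (some none)))
      ((((MT.var (some none)).mul (MT.var none)).mul (h3.rel (fun i => some (some (some i))) id)).mul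
        (h3.rel (fun i => some (some (some i))) id))))))))

lemma D_LeR (B : ℕ) (h1 : MT X C α β x1) (h2 : MT X C α β x2) :
    MD X C α β fun K _ a r v n => LeR B a r (x1 K a r v n) (x2 K a r v n) :=
  MD.ex ((D_NmR B (MT.var none)).and (MD.eq ((h1.rel some id).mul (MT.var none))
    (h2.rel some id)))

/-- the relation defined by the formula `ψ` -/
def Ps (X : LS) (ψ : X.L.Formula (Bool ⊕ Unit ⊕ Unit)) {K : Type} [Group K] (a r g x : K) : Prop :=
  Rl X ψ K (Sum.elim (fun c => cond c a r) (Sum.elim (fun _ => g) fun _ => x))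

lemma D_Ps (ψ : X.L.Formula (Bool ⊕ Unit ⊕ Unit)) (h1 : MT X C α β x1) (h2 : MT X C α β x2) :
    MD X C α β fun K _ a r v n => Ps X ψ a r (x1 K a r v n) (x2 K a r v n) := by
  have h0 : MD X C (Option (Option α)) β fun K _ a r v n =>
      Ps X ψ a r (v (some none)) (v none) := by
    refine ⟨ren ψ (Sum.elim Sum.inl (Sum.elim (fun _ => Sum.inr (Sum.inl (some none)))
      fun _ => Sum.inr (Sum.inl none))), fun K _ a r _ v n => ?_⟩
    unfold Ps
    rw [Rl_ren]
    apply iff_of_eq; congr 1; ext i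
    rcases i with i | i | i <;> rfl
  exact (MD.ex (P := fun K _ a r x v n => ∃ y, x = x1 K a r v n ∧ y = x2 K a r v n ∧
      Ps X ψ a r x y) (MD.ex ((MD.eq (MT.var _) (h1.rel _ _)).and
      ((MD.eq (MT.var _) (h2.rel _ _)).and h0)))).congr fun _ _ _ _ _ _ _ => by simp

end gen

theorem ax_part (B : ℕ) (X : LS) (ψ : X.L.Formula (Bool ⊕ Unit ⊕ Unit)) :
    MD X CT Empty Empty fun _ _ a r _ _ => AxR B a r fun g x => Ps X ψ a r g x := by
  have ab : MD X CT Empty Empty fun K _ a r _ _ =>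
      ∀ x y, CmR r x → CmR r y → x * y = y * x :=
    MD.all (MD.all ((D_CmR (MT.var _)).imp ((D_CmR (MT.var _)).imp
        (MD.eq ((MT.var _).mul (MT.var _)) ((MT.var _).mul (MT.var _))))))
  have n1 : MD X CT Empty Empty fun K _ a r _ _ => NmR B a r 1 := D_NmR B MT.one
  have nr : MD X CT Empty Empty fun K _ a r _ _ => NmR B a r r := D_NmR B MT.r
  have nmul : MD X CT Empty Empty fun K _ a r _ _ =>
      ∀ x y, NmR B a r x → NmR B a r y → NmR B a r (x * y) :=
    MD.all (MD.all ((D_NmR B (MT.var _)).imp ((D_NmR B (MT.var _)).imp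
      (D_NmR B ((MT.var _).mul (MT.var _))))))
  have tot : MD X CT Empty Empty fun K _ a r _ _ =>
      ∀ x, CmR r x → NmR B a r x ∨ NmR B a r x⁻¹ :=
    MD.all ((D_CmR (MT.var _)).imp ((D_NmR B (MT.var _)).or (D_NmR B (MT.var _).inv)))
  have pos : MD X CT Empty Empty fun K _ a r _ _ =>
      ∀ x, NmR B a r x → NmR B a r x⁻¹ → x = 1 :=
    MD.all ((D_NmR B (MT.var _)).imp ((D_NmR B (MT.var _).inv).imp (MD.eq (MT.var _) MT.one)))
  have r1 : MD X CT Empty Empty fun K _ a r _ _ => ¬ r = 1 := (MD.eq MT.r MT.one).not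
  have disc : MD X CT Empty Empty fun K _ a r _ _ =>
      ∀ x, NmR B a r x → x = 1 ∨ NmR B a r (x * r⁻¹) :=
    MD.all ((D_NmR B (MT.var _)).imp ((MD.eq (MT.var _) MT.one).or
      (D_NmR B ((MT.var _).mul MT.r.inv))))
  have fn : MD X CT Empty Empty fun K _ a r _ _ =>
      ∀ x z z', SqR B a r x z → SqR B a r x z' → z = z' :=
    MD.all (MD.all (MD.all ((D_SqR B (MT.var _) (MT.var _)).imp
      ((D_SqR B (MT.var _) (MT.var _)).imp (MD.eq (MT.var _) (MT.var _))))))
  have sq0 : MD X CT Empty Empty fun K _ a r _ _ => SqR B a r 1 1 := D_SqR B MT.one MT.one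
  have sqs : MD X CT Empty Empty fun K _ a r _ _ =>
      ∀ x z, SqR B a r x z → SqR B a r (x * r) (z * x * x * r) :=
    MD.all (MD.all ((D_SqR B (MT.var _) (MT.var _)).imp (D_SqR B ((MT.var _).mul MT.r)
      ((((MT.var _).mul (MT.var _)).mul (MT.var _)).mul MT.r))))
  have mu1 : MD X CT Empty Empty fun K _ a r _ _ => ∀ x, NmR B a r x → MuR B a r x 1 1 :=
    MD.all ((D_NmR B (MT.var _)).imp (D_MuR B (MT.var _) MT.one MT.one))
  have mus : MD X CT Empty Empty fun K _ a r _ _ =>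
      ∀ x y z, NmR B a r x → NmR B a r y → NmR B a r z → MuR B a r x y z →
        MuR B a r x (y * r) (z * x) :=
    MD.all (MD.all (MD.all ((D_NmR B (MT.var _)).imp ((D_NmR B (MT.var _)).imp
      ((D_NmR B (MT.var _)).imp ((D_MuR B (MT.var _) (MT.var _) (MT.var _)).imp
        (D_MuR B (MT.var _) ((MT.var _).mul MT.r) ((MT.var _).mul (MT.var _)))))))))
  have big : MD X CT Empty Empty fun K _ a r _ _ =>
      ∀ x, NmR B a r x → ∃ z, NmR B a r z ∧ ∀ y u, NmR B a r y → NmR B a r u →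
        LeR B a r y x → MuR B a r x y u → LeR B a r u z :=
    MD.all ((D_NmR B (MT.var _)).imp (MD.ex ((D_NmR B (MT.var _)).and (MD.all (MD.all
      ((D_NmR B (MT.var _)).imp ((D_NmR B (MT.var _)).imp ((D_LeR B (MT.var _) (MT.var _)).imp
        ((D_MuR B (MT.var _) (MT.var _) (MT.var _)).imp
          (D_LeR B (MT.var _) (MT.var _)))))))))))
  have l1 : MD X CT Empty Empty fun K _ a r _ _ =>
      ∀ g, ∃ x, NmR B a r x ∧ Ps X ψ a r g x :=
    MD.all (MD.ex ((D_NmR B (MT.var _)).and (D_Ps ψ (MT.var _) (MT.var _))))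
  have l2 : MD X CT Empty Empty fun K _ a r _ _ =>
      ∀ g h x y, NmR B a r x → NmR B a r y → Ps X ψ a r g x → Ps X ψ a r h y →
        Ps X ψ a r (g * h) (x * y) :=
    MD.all (MD.all (MD.all (MD.all ((D_NmR B (MT.var _)).imp ((D_NmR B (MT.var _)).imp
      ((D_Ps ψ (MT.var _) (MT.var _)).imp ((D_Ps ψ (MT.var _) (MT.var _)).imp
        (D_Ps ψ ((MT.var _).mul (MT.var _)) ((MT.var _).mul (MT.var _))))))))))
  have l3 : MD X CT Empty Empty fun K _ a r _ _ =>
      ∀ g x, NmR B a r x → Ps X ψ a r g x → Ps X ψ a r g⁻¹ x :=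
    MD.all (MD.all ((D_NmR B (MT.var _)).imp ((D_Ps ψ (MT.var _) (MT.var _)).imp
      (D_Ps ψ (MT.var _).inv (MT.var _)))))
  have l4 : MD X CT Empty Empty fun K _ a r _ _ =>
      ∀ g x y, NmR B a r x → NmR B a r y → Ps X ψ a r g x → Ps X ψ a r g (x * y) :=
    MD.all (MD.all (MD.all ((D_NmR B (MT.var _)).imp ((D_NmR B (MT.var _)).imp
      ((D_Ps ψ (MT.var _) (MT.var _)).imp (D_Ps ψ (MT.var _) ((MT.var _).mul (MT.var _))))))))
  have l5 : MD X CT Empty Empty fun K _ a r _ _ =>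
      ∀ x, NmR B a r x → ∃ g, ¬ Ps X ψ a r g x :=
    MD.all ((D_NmR B (MT.var _)).imp (MD.ex (D_Ps ψ (MT.var _) (MT.var _)).not))
  refine (ab.and (n1.and (nr.and (nmul.and (tot.and (pos.and (r1.and (disc.and (fn.and
    (sq0.and (sqs.and (mu1.and (mus.and (big.and (l1.and (l2.and (l3.and (l4.and
      l5)))))))))))))))))).congr fun K _ a r _ v n => ?_
  constructor
  · rintro ⟨h1, h2, h3, h4, h5, h6, h7, h8, h9, h10, h11, h12, h13, h14, h15, h16, h17, h18, h19⟩
    exact ⟨h1, h2, h3, h4, h5, h6, h7, h8, h9, h10, h11, h12, h13, h14, h15, h16, h17, h18, h19⟩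
  · rintro ⟨h1, h2, h3, h4, h5, h6, h7, h8, h9, h10, h11, h12, h13, h14, h15, h16, h17, h18, h19⟩
    exact ⟨h1, h2, h3, h4, h5, h6, h7, h8, h9, h10, h11, h12, h13, h14, h15, h16, h17, h18, h19⟩

section num

variable {X : LS} {B : ℕ} {α β : Type} {x1 x2 x3 : Tm α β}

lemma exN (h : S_frame) {P : ∀ (K : Type) [Group K], K → K → ℕ → (α → K) → (β → ℕ) → Prop}
    (hP : MD X (CR B) α (Option β) fun K _ a r v m => P K a r (m none) v fun j => m (some j)) :
    MD X (CR B) α β fun K _ a r v n => ∃ x, P K a r x v n := (h B).2 hP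

lemma allN (h : S_frame) {P : ∀ (K : Type) [Group K], K → K → ℕ → (α → K) → (β → ℕ) → Prop}
    (hP : MD X (CR B) α (Option β) fun K _ a r v m => P K a r (m none) v fun j => m (some j)) :
    MD X (CR B) α β fun K _ a r v n => ∀ x, P K a r x v n :=
  (exN h (P := fun K _ a r x v n => ¬ P K a r x v n) hP.not).not.congr
    fun _ _ _ _ _ _ _ => by simp

lemma arN (h : S_frame) {Q : (β → ℕ) → Prop} (hQ : Ar β Q) :
    MD X (CR B) α β fun _ _ _ _ _ n => Q n := (h B).1 hQ

lemma powN (h : S_frame) {f : (β → ℕ) → ℕ} (hf : NT β f) :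
    MT X (CR B) α β fun _ _ _ r _ n => r ^ f n :=
  (exN h (P := fun _ _ _ r x w n => x = f n ∧ w none = r ^ x)
    ((arN h hf).and (MD.eq (MT.var _) (MT.num _)))).congr fun _ _ _ _ _ _ _ => by simp

lemma WdN (h : S_frame) (B' : ℕ) {f : (β → ℕ) → ℕ} (hf : NT β f) :
    MT X (CR B) α β fun _ _ a r _ n => Wd B' r a (f n) :=
  MT_blk MT.a (powN h hf) B'

lemma ar2 (h : S_rear) {R : ℕ → ℕ → Prop} (hR : REPred fun n : ℕ => R n.unpair.1 n.unpair.2)
    {γ : Type} {s t : (γ → ℕ) → ℕ} (hs : NT γ s) (ht : NT γ t) : Ar γ fun v => R (s v) (t v) := by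
  have h1 : Ar (Option γ) fun w => R (w none).unpair.1 (w none).unpair.2 :=
    (h _ hR).rel fun _ => none
  refine (Ar.ex (P := fun x v => ((s v < t v ∧ x = t v * t v + s v) ∨
    (¬ s v < t v ∧ x = s v * s v + s v + t v)) ∧ R x.unpair.1 x.unpair.2)
    ((((Ar.lt (hs.rel _) (ht.rel _)).and (Ar.eq (NT.var _)
      (((ht.rel _).mul (ht.rel _)).add (hs.rel _)))).or
      ((Ar.lt (hs.rel _) (ht.rel _)).not.and (Ar.eq (NT.var _)
      ((((hs.rel _).mul (hs.rel _)).add (hs.rel _)).add (ht.rel _))))).and h1)).congr fun v => ?_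
  have h2 : ∀ x, ((s v < t v ∧ x = t v * t v + s v) ∨
      (¬ s v < t v ∧ x = s v * s v + s v + t v)) ↔ x = Nat.pair (s v) (t v) := by
    intro x
    unfold Nat.pair
    split_ifs with h3 <;> simp [h3]
  simp only [h2]
  simp

end num

theorem md (h1 : S_frame) (h2 : S_rear) (h3 : S_re) : S_md := by
  intro B X
  obtain ⟨hE, hL, hC⟩ := h3 B
  have hcd : ∀ (σ : ℕ) {γ : Type} {s : (γ → ℕ) → ℕ}, NT γ s → NT γ fun v => cdR B σ (s v) :=
    fun σ γ s hs => ar2 h2 (R := fun i j => j = cdR B σ i) (hC σ) (hs.rel some) (NT.var none)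
  refine ⟨fun ψ => ax_part B X ψ, ?_, ?_⟩
  · have sur : MD X (CR B) Empty Empty fun K _ a r _ _ => ∀ g : K, ∃ k : ℕ, g = Wd B r a k :=
      MD.all (exN h1 (MD.eq (MT.var _) (WdN h1 B (NT.var none))))
    have eq : MD X (CR B) Empty Empty fun K _ a r _ _ =>
        ∀ i j : ℕ, Wd B r a i = Wd B r a j ↔ EqG B i j :=
      allN h1 (allN h1 ((MD.eq (WdN h1 B (NT.var (some none))) (WdN h1 B (NT.var none))).iff
        (arN h1 (ar2 h2 (R := EqG B) hE (NT.var _) (NT.var _)))))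
    have cod : MD X (CR B) Empty Empty fun K _ a r _ _ =>
        ∀ (σ : Fin 4) (i : ℕ), Wd B r a i * ltr r a σ = Wd B r a (cdR B σ i) :=
      MD.allF fun σ => allN h1 (MD.eq ((WdN h1 B (NT.var none)).mul (MT_ltr MT.r MT.a σ))
        (WdN h1 B (hcd σ (NT.var none))))
    refine (sur.and (eq.and cod)).congr fun K _ a r _ v n => ?_
    exact ⟨fun ⟨h1, h2, h3⟩ => ⟨h1, h2, h3⟩, fun ⟨h1, h2, h3⟩ => ⟨h1, h2, h3⟩⟩
  · exact exN h1 (MD.and (MD.eq (MT.var _) (WdN h1 B (NT.var none)))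
      (arN h1 (ar2 h2 (R := fun i j => LleG B (Wd B (ga B) (gb B) i) j) hL (NT.var none)
        (NT.var (some ())))))

end Pool.Agent.H636.QF
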